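import Pool.Agent.Work.MP_494ea5_gt.Final

set_option autoImplicit false

open Set
open scoped InnerProductSpace

namespace Pool.Agent.Results.MP_494ea5_gt.MirrorCurvature

open Pool.Agent.MCFM

/-- **The first singularities of a mirror symmetric bigraph lie in the mirror.**  Let
`M_t = {φ(·, t) = 0}`, `0 ≤ t < T`, be a smooth mean curvature flow of closed embedded surfaces, the
boundaries of the domains `{φ(·, t) < 0}`, such that `M_0` is symmetric under the reflection in the
plane `α^⊥` and is a strict bigraph over this plane.  Then for each `δ > 0` the curvature of `M_t` is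
bounded, uniformly in `t < T`, at the points whose distance to the plane is at least `δ`. -/
theorem result {T : ℝ} {φ : E × ℝ → ℝ} (F : Flow T φ) {α : E} (hα : ‖α‖ = 1)
    (hsym : Sym φ α 0)
    (h1 : ∀ p, φ (p, 0) = 0 → 0 < ⟪α, p⟫_ℝ → 0 < ⟪α, nu φ (p, 0)⟫_ℝ)
    (h2 : ∀ p, φ (p, 0) = 0 → ⟪α, p⟫_ℝ = 0 → 0 < hess φ (p, 0) α α) :
    ∀ δ > 0, ∃ C : ℝ, ∀ t ∈ Ico 0 T, ∀ p, φ (p, t) = 0 → δ ≤ |⟪α, p⟫_ℝ| →
      sqA φ (p, t) ≤ C := by
  have h := (mirrors F (S := {α}) (by simpa using hα) (by simpa using hsym) (by simpa using h1)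
    (by simpa using h2)).1
  exact h α rfl

end Pool.Agent.Results.MP_494ea5_gt.MirrorCurvature
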