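import Pool.Agent.Work.MP_494ea5_gt.End

set_option autoImplicit false

open Set
open scoped InnerProductSpace

namespace Pool.Agent.Results.MP_494ea5_gt.OneSingularPoint

open Pool.Agent.MCFM

/-- **Mirror symmetric bigraphs have exactly one singular point.**  Let `M_t = {φ(·, t) = 0}`,
`0 ≤ t < T`, be a smooth mean curvature flow of closed embedded surfaces, the boundaries of the
domains `{φ(·, t) < 0}`, and let `S` be a set of unit vectors which spans `ℝ³` such that, for each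
`α ∈ S`, `M_0` is symmetric under the reflection in the plane `α^⊥` and is a strict bigraph over this
plane.  If the curvature is unbounded as `t → T`, then the singular set of the flow through
singularities is `{(0, T)}`. -/
theorem result {T : ℝ} {φ : E × ℝ → ℝ} (F : Flow T φ) {S : Set E}
    (hS : ∀ α ∈ S, ‖α‖ = 1) (hspan : Submodule.span ℝ S = ⊤) (hsym : ∀ α ∈ S, Sym φ α 0)
    (h1 : ∀ α ∈ S, ∀ p, φ (p, 0) = 0 → 0 < ⟪α, p⟫_ℝ → 0 < ⟪α, nu φ (p, 0)⟫_ℝ)
    (h2 : ∀ α ∈ S, ∀ p, φ (p, 0) = 0 → ⟪α, p⟫_ℝ = 0 → 0 < hess φ (p, 0) α α)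
    (hT : ∀ C : ℝ, ∃ t ∈ Ico 0 T, ∃ p, φ (p, t) = 0 ∧ C < sqA φ (p, t))
    {M : Set (E × ℝ)} (hM : WeakFlow M)
    (hMφ : ∀ t ∈ Ico 0 T, ∀ p, (p, t) ∈ M ↔ φ (p, t) = 0) :
    {X | X ∈ M ∧ ¬ IsRegular M X} = {(0, T)} :=
  singular_eq F hS hspan hsym h1 h2 hT hM hMφ

end Pool.Agent.Results.MP_494ea5_gt.OneSingularPoint
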